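import Mathlib
import Pool.Agent.Helper256.KM.Mertens
import Pool.Agent.TH151.RM.Tail

/-!
# Sets of integers with at most `r` representations `m = p a`: the constant `r - 1`

For every `r ≥ 1` the largest reciprocal sum `M_r(N)` of a set `A ⊆ {1, …, N}` such that every
positive integer has at most `r` representations `p a` with `p` prime and `a ∈ A` is at most
`(r - 1 + o(1)) log N / log log N`.
-/

set_option autoImplicit false

namespace Pool.Agent.Results.MP_277c78_nt.UpperConstant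

open Finset Filter Topology

/-- The number `R_A(m)` of pairs `(p, a)` with `p` prime, `a ∈ A` and `m = p a`. -/
noncomputable def rep (A : Finset ℕ) (m : ℕ) : ℕ :=
  {x : ℕ × ℕ | x.1.Prime ∧ x.2 ∈ A ∧ m = x.1 * x.2}.ncard

/-- `A` is `r`-admissible at level `N`: `A ⊆ {1, …, N}` and `R_A(m) ≤ r` for all `m ≥ 1`. -/
def Admissible (r N : ℕ) (A : Finset ℕ) : Prop :=
  A ⊆ Finset.Icc 1 N ∧ ∀ m : ℕ, 0 < m → rep A m ≤ r

/-- The largest reciprocal sum of an `r`-admissible set at level `N`. -/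
noncomputable def M (r N : ℕ) : ℝ :=
  sSup {x : ℝ | ∃ A : Finset ℕ, Admissible r N A ∧ x = ∑ n ∈ A, (1 : ℝ) / n}

theorem exists_delta (r : ℕ) (hr : 1 ≤ r) {ε : ℝ} (hε : 0 < ε) :
    ∃ δ : ℝ, 0 < δ ∧ δ < 1 ∧
      0 < (1 - δ) ^ 4 - (1 + δ) / ((1 - δ) * ((r : ℝ) - 1 + ε)) * ((r : ℝ) - 1) := by
  have hr1 : (1 : ℝ) ≤ r := by exact_mod_cast hr
  have hρ : 0 < (r : ℝ) - 1 + ε := by linarith
  have hc : ContinuousAt (fun δ : ℝ =>
      (1 - δ) ^ 4 - (1 + δ) / ((1 - δ) * ((r : ℝ) - 1 + ε)) * ((r : ℝ) - 1)) 0 := by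
    refine ContinuousAt.sub (by fun_prop) (ContinuousAt.mul (ContinuousAt.div (by fun_prop)
      (by fun_prop) ?_) (by fun_prop))
    simpa using hρ.ne'
  have h0 : 0 < (fun δ : ℝ =>
      (1 - δ) ^ 4 - (1 + δ) / ((1 - δ) * ((r : ℝ) - 1 + ε)) * ((r : ℝ) - 1)) 0 := by
    simp only [sub_zero, one_pow, add_zero, one_mul]
    rw [one_div, inv_mul_eq_div, sub_pos, div_lt_one hρ]
    linarith
  have h1 := hc.eventually (lt_mem_nhds h0)
  obtain ⟨η, hη, hball⟩ := Metric.eventually_nhds_iff.1 h1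
  refine ⟨min (η / 2) (1 / 2), by positivity, (min_le_right _ _).trans_lt (by norm_num), ?_⟩
  refine hball ?_
  rw [Real.dist_eq, sub_zero, abs_of_pos (by positivity)]
  exact (min_le_left _ _).trans_lt (by linarith)

theorem kappa_lt {x : ℝ} (hx0 : 0 < x) (hx1 : x < 1) : x * (1 - Real.log x) < 1 := by
  have h1 : Real.log x⁻¹ < x⁻¹ - 1 := Real.log_lt_sub_one_of_pos (inv_pos.2 hx0) (by
    intro h
    rw [inv_eq_one] at h
    linarith)
  rw [Real.log_inv] at h1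
  have h2 : x * (1 - Real.log x) < x * x⁻¹ := by
    refine mul_lt_mul_of_pos_left ?_ hx0
    linarith
  rwa [mul_inv_cancel₀ hx0.ne'] at h2

theorem main (r : ℕ) (hr : 1 ≤ r) (ε : ℝ) (hε : 0 < ε) :
    ∃ N₀ : ℕ, ∀ N : ℕ, N₀ ≤ N → ∀ A : Finset ℕ, Admissible r N A →
      ∑ n ∈ A, (1 : ℝ) / n ≤ ((r : ℝ) - 1 + ε) * (Real.log N / Real.log (Real.log N)) := by
  have hr1 : (1 : ℝ) ≤ r := by exact_mod_cast hr
  obtain ⟨ρ, hρ⟩ : ∃ ρ : ℝ, ρ = (r : ℝ) - 1 + ε := ⟨_, rfl⟩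
  have hρ0 : 0 < ρ := by linarith
  obtain ⟨δ, hδ0, hδ1, hg⟩ := exists_delta r hr hε
  rw [← hρ] at hg ⊢
  obtain ⟨x, hx⟩ : ∃ x : ℝ, x = 1 - δ := ⟨_, rfl⟩
  have hx0 : 0 < x := by linarith
  have hx1 : x < 1 := by linarith
  rw [← hx] at hg
  obtain ⟨θ, hθ⟩ : ∃ θ : ℝ, θ = (1 + δ) / (x * ρ) := ⟨_, rfl⟩
  have hθ0 : 0 < θ := by rw [hθ]; positivity
  rw [← hθ] at hg
  obtain ⟨η, hη⟩ : ∃ η : ℝ, η = (x ^ 4 - θ * ((r : ℝ) - 1)) / 3 := ⟨_, rfl⟩
  have hη0 : 0 < η := by rw [hη]; linarith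
  obtain ⟨K, hK⟩ := exists_nat_ge (θ ^ 2 / η + 1)
  have hK1 : (1 : ℝ) ≤ K := le_trans (by have : 0 ≤ θ ^ 2 / η := by positivity
                                         linarith) hK
  have hKη : θ ^ 2 / K ≤ η := by
    rw [div_le_iff₀ (by linarith)]
    have : θ ^ 2 / η ≤ K := by linarith
    rw [div_le_iff₀ hη0] at this
    linarith
  obtain ⟨κ, hκ⟩ : ∃ κ : ℝ, κ = x * (1 - Real.log x) := ⟨_, rfl⟩
  have hκ1 : κ < 1 := by rw [hκ]; exact kappa_lt hx0 hx1
  have hκ0 : 0 < κ := by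
    rw [hκ]
    have := Real.log_neg hx0 hx1
    exact mul_pos hx0 (by linarith)
  obtain ⟨C, hC⟩ := Pool.Agent.Helper256.KM.mertens_inv
  -- the limits
  have hl : Tendsto (fun N : ℕ => Real.log N) atTop atTop :=
    Real.tendsto_log_atTop.comp tendsto_natCast_atTop_atTop
  have hll : Tendsto (fun N : ℕ => Real.log (Real.log N)) atTop atTop :=
    Real.tendsto_log_atTop.comp hl
  have F1 : ∀ᶠ N : ℕ in atTop, C / δ ≤ Real.log (Real.log N) := hll.eventually_ge_atTop _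
  have F2 : ∀ᶠ N : ℕ in atTop, 1 / δ ≤ Real.log N := hl.eventually_ge_atTop _
  have F4 : ∀ᶠ N : ℕ in atTop, θ * K / (η * x) ≤ Real.log (Real.log N) :=
    hll.eventually_ge_atTop _
  have F5 : ∀ᶠ N : ℕ in atTop, 1 ≤ Real.log (Real.log N) := hll.eventually_ge_atTop _
  have F3 : ∀ᶠ N : ℕ in atTop, Real.log (Real.log N) * Real.exp (-(1 - κ) * Real.log (Real.log N)) <
      δ * ρ * Real.exp (-(κ * C + x)) := by
    have h1 := tendsto_rpow_mul_exp_neg_mul_atTop_nhds_zero 1 (1 - κ) (by linarith)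
    have h2 := (h1.comp hll).eventually (gt_mem_nhds (show (0 : ℝ) < δ * ρ * Real.exp (-(κ * C + x))
      by positivity))
    filter_upwards [h2] with N hN
    simpa only [Function.comp, Real.rpow_one] using hN
  obtain ⟨N₀, hN₀⟩ := eventually_atTop.1
    (F1.and (F2.and (F3.and (F4.and (F5.and (eventually_ge_atTop 3))))))
  refine ⟨N₀, fun N hN A hA => ?_⟩
  obtain ⟨f1, f2, f3, f4, f5, f6⟩ := hN₀ N hN
  have hM := hC N f6
  obtain ⟨l, hldef⟩ : ∃ l : ℝ, l = Real.log N := ⟨_, rfl⟩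
  obtain ⟨w, hwdef⟩ : ∃ w : ℝ, w = Real.log (Real.log N) := ⟨_, rfl⟩
  rw [← hwdef] at f1 f3 f4 f5 hM ⊢
  rw [← hldef] at f2 ⊢
  have hl0 : 0 < l := lt_of_lt_of_le (by positivity) f2
  have hlw : l = Real.exp w := by
    rw [hwdef, ← hldef, Real.exp_log hl0]
  have hw0 : 0 < w := by linarith
  obtain ⟨L, hL⟩ : ∃ L : ℝ, L = ∑ p ∈ (Finset.Icc 1 N).filter Nat.Prime, (1 : ℝ) / p := ⟨_, rfl⟩
  rw [← hL] at hM
  have hM' := abs_le.1 hM
  have hLlow : x * w ≤ L := by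
    have : C ≤ δ * w := by
      rw [div_le_iff₀ hδ0] at f1
      linarith
    rw [hx]
    linarith [hM'.1]
  have hLup : L ≤ w + C := by linarith [hM'.2]
  have hL0 : 0 < L := lt_of_lt_of_le (by positivity) hLlow
  by_contra hcon
  push Not at hcon
  obtain ⟨S, hS⟩ : ∃ S : ℝ, S = ∑ n ∈ A, (1 : ℝ) / n := ⟨_, rfl⟩
  rw [← hS] at hcon
  have hS0 : 0 < S := lt_trans (by positivity) hcon
  obtain ⟨H, hH⟩ : ∃ H : ℝ, H = ∑ b ∈ Finset.Icc 1 N, (1 : ℝ) / b := ⟨_, rfl⟩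
  have hHl : H ≤ (1 + δ) * l := by
    have h1 := harmonic_le_one_add_log N
    have h2 : ((harmonic N : ℚ) : ℝ) = H := by
      rw [hH, harmonic_eq_sum_Icc]
      push_cast
      refine Finset.sum_congr rfl fun i _ => ?_
      rw [one_div]
    rw [h2, ← hldef] at h1
    have : 1 ≤ δ * l := by
      rw [div_le_iff₀ hδ0] at f2
      linarith
    linarith
  have hH0 : 0 ≤ H := by
    rw [hH]
    exact Finset.sum_nonneg fun b _ => by positivity
  -- the tail
  have hT : ∑ a ∈ A.filter (fun a => (a.primeFactors.card : ℝ) < x * L), (1 : ℝ) / a ≤ δ * S := by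
    have h1 : ∑ a ∈ A.filter (fun a => (a.primeFactors.card : ℝ) < x * L), (1 : ℝ) / a ≤
        ∑ a ∈ (Finset.Icc 1 N).filter (fun a => (a.primeFactors.card : ℝ) < x * L), (1 : ℝ) / a :=
      Finset.sum_le_sum_of_subset_of_nonneg (Finset.filter_subset_filter _ hA.1)
        fun _ _ _ => by positivity
    have h2 := Pool.Agent.TH151.RM.tail (y := x * L) hx0 hx1.le N
    rw [← hL] at h2
    have h3 : x ^ (-(x * L)) * Real.exp (x * (L + 1)) = Real.exp (κ * L + x) := by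
      rw [Real.rpow_def_of_pos hx0, ← Real.exp_add, hκ]
      congr 1
      ring
    rw [h3] at h2
    have h4 : Real.exp (κ * L + x) ≤ Real.exp (κ * w + (κ * C + x)) := by
      refine Real.exp_le_exp.2 ?_
      have := mul_le_mul_of_nonneg_left hLup hκ0.le
      linarith
    have h5 : w * Real.exp (κ * w + (κ * C + x)) ≤ δ * ρ * l := by
      have e1 : w * Real.exp (κ * w + (κ * C + x)) =
          (w * Real.exp (-(1 - κ) * w)) * (Real.exp w * Real.exp (κ * C + x)) := by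
        rw [mul_assoc, ← Real.exp_add, ← Real.exp_add]
        congr 2
        ring
      have e2 : δ * ρ * l = (δ * ρ * Real.exp (-(κ * C + x))) * (Real.exp w * Real.exp (κ * C + x)) := by
        rw [hlw, Real.exp_neg]
        field_simp
      rw [e1, e2]
      exact mul_le_mul_of_nonneg_right f3.le (by positivity)
    have h6 : Real.exp (κ * w + (κ * C + x)) ≤ δ * (ρ * (l / w)) := by
      rw [show δ * (ρ * (l / w)) = δ * ρ * l / w by ring, le_div_iff₀ hw0]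
      linarith
    have h7 : δ * (ρ * (l / w)) ≤ δ * S := mul_le_mul_of_nonneg_left hcon.le hδ0.le
    linarith
  -- the lower bound
  have hlow : x ^ 2 * (S * L) ≤ ∑ a ∈ A, (a.primeFactors.card : ℝ) / a := by
    have h1 : S = ∑ a ∈ A.filter (fun a => (a.primeFactors.card : ℝ) < x * L), (1 : ℝ) / a +
        ∑ a ∈ A.filter (fun a => ¬ (a.primeFactors.card : ℝ) < x * L), (1 : ℝ) / a := by
      rw [hS, Finset.sum_filter_add_sum_filter_not]
    have h2 : x * L * ∑ a ∈ A.filter (fun a => ¬ (a.primeFactors.card : ℝ) < x * L), (1 : ℝ) / a ≤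
        ∑ a ∈ A, (a.primeFactors.card : ℝ) / a := by
      rw [Finset.mul_sum]
      refine le_trans ?_ (Finset.sum_le_sum_of_subset_of_nonneg
        (Finset.filter_subset (fun a => ¬ (a.primeFactors.card : ℝ) < x * L) A)
        fun a _ _ => div_nonneg (Nat.cast_nonneg _) (Nat.cast_nonneg _))
      refine Finset.sum_le_sum fun a ha => ?_
      have h3 := (Finset.mem_filter.1 ha).2
      push Not at h3
      rw [mul_one_div]
      exact div_le_div_of_nonneg_right h3 (Nat.cast_nonneg a)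
    refine le_trans ?_ h2
    have h4 : x * S ≤ ∑ a ∈ A.filter (fun a => ¬ (a.primeFactors.card : ℝ) < x * L), (1 : ℝ) / a := by
      have e : x * S = S - δ * S := by rw [hx]; ring
      rw [e]
      linarith
    calc x ^ 2 * (S * L) = x * L * (x * S) := by ring
      _ ≤ _ := mul_le_mul_of_nonneg_left h4 (by positivity)
  have hkey := Pool.Agent.TH151.RM.key N r A hA.1 hA.2
  have hdiag := Pool.Agent.TH151.RM.diag N K (by exact_mod_cast hK1) A hA.1
  rw [← hS, ← hH] at hdiag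
  rw [← hH, ← hS, ← hL] at hkey
  obtain ⟨u, hu⟩ : ∃ u : ℝ, u = S * L := ⟨_, rfl⟩
  have hu0 : 0 < u := by rw [hu]; positivity
  rw [← hu] at hlow
  have hHu : H ≤ θ * u := by
    have h1 : ρ * (l / w) * (x * w) ≤ u := by
      rw [hu]
      exact mul_le_mul hcon.le hLlow (by positivity) hS0.le
    have h2 : ρ * (l / w) * (x * w) = x * ρ * l := by
      field_simp
    rw [h2] at h1
    have h3 : (1 + δ) * l = θ * (x * ρ * l) := by
      rw [hθ]
      field_simp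
    calc H ≤ (1 + δ) * l := hHl
      _ = θ * (x * ρ * l) := h3
      _ ≤ θ * u := mul_le_mul_of_nonneg_left h1 hθ0.le
  have hKS : K * S * θ ≤ η * u := by
    have h1 : θ * K ≤ η * L := by
      rw [div_le_iff₀ (mul_pos hη0 hx0)] at f4
      have h2 := mul_le_mul_of_nonneg_left hLlow hη0.le
      have h3 : w * (η * x) = η * (x * w) := by ring
      rw [h3] at f4
      exact f4.trans h2
    calc K * S * θ = θ * K * S := by ring
      _ ≤ η * L * S := mul_le_mul_of_nonneg_right h1 hS0.le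
      _ = η * u := by rw [hu]; ring
  have h1 : (x ^ 2 * u) ^ 2 ≤ (∑ a ∈ A, (a.primeFactors.card : ℝ) / a) ^ 2 :=
    pow_le_pow_left₀ (by positivity) hlow 2
  have h2 : (x ^ 2 * u) ^ 2 ≤ θ * u * (((r : ℝ) - 1) * u + (K * S + θ * u / K)) := by
    refine (h1.trans hkey).trans ?_
    have h3 : ((r : ℝ) - 1) * S * L = ((r : ℝ) - 1) * u := by rw [hu]; ring
    rw [h3]
    have h4 : H / K ≤ θ * u / K := div_le_div_of_nonneg_right hHu (by positivity)
    refine mul_le_mul hHu (by linarith) ?_ (by positivity)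
    refine add_nonneg (mul_nonneg (by linarith) hu0.le) (Finset.sum_nonneg fun a _ =>
      mul_nonneg (by positivity) (Finset.sum_nonneg fun p _ => by positivity))
  have h3 : θ * u * (((r : ℝ) - 1) * u + (K * S + θ * u / K)) ≤
      u ^ 2 * (θ * ((r : ℝ) - 1) + 2 * η) := by
    have e1 : θ * u * (((r : ℝ) - 1) * u + (K * S + θ * u / K)) =
        u ^ 2 * (θ * ((r : ℝ) - 1)) + u * (K * S * θ) + u ^ 2 * (θ ^ 2 / K) := by ring
    rw [e1]
    have e2 : u * (K * S * θ) ≤ u * (η * u) := mul_le_mul_of_nonneg_left hKS hu0.le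
    have e3 : u ^ 2 * (θ ^ 2 / K) ≤ u ^ 2 * η := mul_le_mul_of_nonneg_left hKη (by positivity)
    have e4 : u ^ 2 * (θ * ((r : ℝ) - 1) + 2 * η) =
        u ^ 2 * (θ * ((r : ℝ) - 1)) + u * (η * u) + u ^ 2 * η := by ring
    rw [e4]
    exact add_le_add (add_le_add le_rfl e2) e3
  have h4 : u ^ 2 * x ^ 4 ≤ u ^ 2 * (θ * ((r : ℝ) - 1) + 2 * η) := by
    calc u ^ 2 * x ^ 4 = (x ^ 2 * u) ^ 2 := by ring
      _ ≤ _ := h2.trans h3
  have h5 : x ^ 4 ≤ θ * ((r : ℝ) - 1) + 2 * η := le_of_mul_le_mul_left h4 (by positivity)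
  rw [hη] at h5
  linarith

theorem result (r : ℕ) (hr : 1 ≤ r) (ε : ℝ) (hε : 0 < ε) :
    ∃ N₀ : ℕ, ∀ N : ℕ, N₀ ≤ N →
      M r N ≤ ((r : ℝ) - 1 + ε) * (Real.log N / Real.log (Real.log N)) := by
  obtain ⟨N₀, h⟩ := main r hr ε hε
  refine ⟨N₀, fun N hN => ?_⟩
  unfold M
  refine csSup_le ⟨0, ∅, ⟨Finset.empty_subset _, fun m _ => ?_⟩, by simp⟩ ?_
  · have : {x : ℕ × ℕ | x.1.Prime ∧ x.2 ∈ (∅ : Finset ℕ) ∧ m = x.1 * x.2} = ∅ := by
      ext x
      simp
    unfold rep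
    rw [this, Set.ncard_empty]
    exact Nat.zero_le _
  · rintro y ⟨A, hA, rfl⟩
    exact h N hN A hA

end Pool.Agent.Results.MP_277c78_nt.UpperConstant
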